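import Pool.Agent.P.MP_01accb_co.Block

set_option autoImplicit false

open Pointwise

namespace Pool.Agent.Results.MP_01accb_co.AbelianBlocks

open Pool.Agent.P.MP_01accb_co

/-- If a connected block carries an abelian action of its stabiliser and some path meets every
translate of the block, the rendezvous value is `(n-1)/2`. -/
theorem result (V : Type) [Fintype V] (X : SimpleGraph V)
    (Γ : Type) [Group Γ] [Fintype Γ] [MulAction Γ V]
    (hadj : ∀ (g : Γ) (u v : V), X.Adj u v → X.Adj (g • u) (g • v))
    (htr : MulAction.IsPretransitive Γ V)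
    (B : Set V) (hB : MulAction.IsBlock Γ B) (hcon : (X.induce B).Connected)
    (hab : ∀ g h : Γ, g • B = B → h • B = B → ∀ x ∈ B, g • h • x = h • g • x)
    (u v : V) (p : X.Walk u v) (hp : p.IsPath) (hmeet : ∀ g : Γ, ∃ x ∈ p.support, x ∈ g • B) :
    ValueIsHalf X Γ :=
  value_of_block hadj B hB hcon hab p.support p.isChain_adj_support hp.support_nodup hmeet

end Pool.Agent.Results.MP_01accb_co.AbelianBlocks
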