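import Pool.Agent.P.MP_01accb_co.Product

set_option autoImplicit false

open Pointwise

namespace Pool.Agent.Results.MP_01accb_co.AbelianProduct

open Pool.Agent.P.MP_01accb_co

/-- If a connected block carries an abelian action of its stabiliser and an abelian subgroup
permutes the translates of the block transitively, the rendezvous value is `(n-1)/2`. -/
theorem result (V : Type) [Fintype V] (X : SimpleGraph V) (hX : X.Connected)
    (Γ : Type) [Group Γ] [Fintype Γ] [MulAction Γ V]
    (hadj : ∀ (g : Γ) (u v : V), X.Adj u v → X.Adj (g • u) (g • v))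
    (htr : MulAction.IsPretransitive Γ V)
    (B : Set V) (hB : MulAction.IsBlock Γ B) (hcon : (X.induce B).Connected)
    (hab : ∀ g h : Γ, g • B = B → h • B = B → ∀ x ∈ B, g • h • x = h • g • x)
    (N : Subgroup Γ) (hN : ∀ a ∈ N, ∀ b ∈ N, a * b = b * a)
    (hNtr : ∀ g : Γ, ∃ a ∈ N, a • B = g • B) :
    ValueIsHalf X Γ := by
  obtain ⟨P, h1, h2, h3⟩ := exists_path_of_abelian hX hadj B hB hcon N hN hNtr
  exact value_of_block hadj B hB hcon hab P h1 h2 h3

end Pool.Agent.Results.MP_01accb_co.AbelianProduct
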