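import Pool.Agent.P.MP_01accb_co.Arc

set_option autoImplicit false

namespace Pool.Agent.Results.MP_01accb_co.ArcTransitive

open Pool.Agent.P.MP_01accb_co

/-- For an arc-transitive group the rendezvous value is `(n-1)/2` exactly when the graph has a
Hamiltonian path. -/
theorem result (V : Type) [Fintype V] [DecidableEq V] (X : SimpleGraph V) (hX : X.Connected)
    (Γ : Type) [Group Γ] [Fintype Γ] [MulAction Γ V]
    (_hadj : ∀ (g : Γ) (u v : V), X.Adj u v → X.Adj (g • u) (g • v))
    (htr : MulAction.IsPretransitive Γ V)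
    (harc : ∀ u v u' v' : V, X.Adj u v → X.Adj u' v' → ∃ g : Γ, g • u = u' ∧ g • v = v') :
    ValueIsHalf X Γ ↔ ∃ (u v : V) (p : X.Walk u v), p.IsHamiltonian := by
  haveI := hX.nonempty
  exact ⟨ham_of_value harc, fun ⟨_, _, p, hp⟩ => value_of_ham p hp⟩

end Pool.Agent.Results.MP_01accb_co.ArcTransitive
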