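import Pool.Agent.P.MP_01accb_co.HV.Main

set_option autoImplicit false

namespace Pool.Agent.Results.MP_01accb_co.LargeValency

open Pool.Agent.P.MP_01accb_co

/-- If the stabiliser of a vertex fixes at least `10 ^ 9` of its neighbours (for instance in every
Cayley graph of valency at least `10 ^ 9` with the regular action), the rendezvous value is
`(n-1)/2`. -/
theorem result (V : Type) [Fintype V] (X : SimpleGraph V) (hX : X.Connected)
    (Γ : Type) [Group Γ] [Fintype Γ] [MulAction Γ V]
    (hadj : ∀ (g : Γ) (u v : V), X.Adj u v → X.Adj (g • u) (g • v))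
    (htr : MulAction.IsPretransitive Γ V)
    (o : V) (A : Finset V) (hA : 10 ^ 9 ≤ A.card) (hAo : ∀ u ∈ A, X.Adj o u)
    (hfix : ∀ g : Γ, g • o = o → ∀ u ∈ A, g • u = u) :
    ValueIsHalf X Γ :=
  HV.value_of_fixed hX.preconnected hadj o A hA hAo hfix

end Pool.Agent.Results.MP_01accb_co.LargeValency
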